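import Pool.Agent.H837.AB.Defs

/-!
# Transversal intersections of hypersurfaces
-/

set_option autoImplicit false

namespace Pool.Agent.H837.HT

open MvPolynomial Pool.Agent.H837.AB

variable {K : Type} [Field K] {r N : ℕ}

/-- `X` is a transversal intersection of `e` hypersurfaces of degrees at most `c`: it is the set of the
common zeros of `e` forms `G j` of degrees at most `c`, which have independent differentials at all
points of `X`. -/
def Transversal (e c : ℕ) (F : Fin N → MvPolynomial (Fin (r + 1)) K) : Prop :=
  ∃ d : Fin e → Fin (c + 1), ∃ G : Fin e → MvPolynomial (Fin (r + 1)) K,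
    (∀ j, (G j).IsHomogeneous (d j : ℕ)) ∧
      ((∀ x : Fin (r + 1) → K, Zero F x ↔ Zero G x) ∧
        ∀ x : Fin (r + 1) → K, x ≠ 0 → Zero F x →
          ∃ A : Fin e → Fin (r + 1), eval x (jac G id A) ≠ 0)

/-- The nonempty smooth closed subvarieties `X` of pure codimension `e` of the projective space of
dimension `n` over `K` are transversal intersections of `e` hypersurfaces. -/
def Question (n e : ℕ) (K : Type) [Field K] : Prop :=
  ∀ (N : ℕ) (δ : Fin N → ℕ) (F : Fin N → MvPolynomial (Fin (n + 1)) K),
    (∀ i, (F i).IsHomogeneous (δ i)) → (∃ x : Fin (n + 1) → K, x ≠ 0 ∧ Zero F x) →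
      (∃ b, SmoothBy e b F) → ∃ c, Transversal e c F

end Pool.Agent.H837.HT
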