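import Pool.Agent.H837.AB.Defs

/-!
# Degrees of the equations of a complete intersection
-/

set_option autoImplicit false

namespace Pool.Agent.H837.HT

open MvPolynomial Pool.Agent.H837.AB

variable {K : Type} [Field K] {r N : ℕ}

/-- `X` is a complete intersection of `e` hypersurfaces: there are `e` forms `G j`, zero on `X`, such
that the forms `F i` are in the ideal generated by the `G j`. (If `X` is smooth of pure codimension `e`
in the sense of `SmoothBy`, the `G j` then generate the ideal of `X`.) -/
def CompleteIntersection (e : ℕ) (F : Fin N → MvPolynomial (Fin (r + 1)) K) : Prop :=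
  ∃ (d : Fin e → ℕ) (G : Fin e → MvPolynomial (Fin (r + 1)) K), (∀ j, (G j).IsHomogeneous (d j)) ∧
    (∀ x : Fin (r + 1) → K, Zero F x → Zero G x) ∧ ∀ i, F i ∈ Ideal.span (Set.range G)

/-- The same with forms `G j` of degrees at most `c` and coefficients of degrees at most `c`. -/
def CIBy (e c : ℕ) (F : Fin N → MvPolynomial (Fin (r + 1)) K) : Prop :=
  ∃ d : Fin e → Fin (c + 1), ∃ G : Fin e → MvPolynomial (Fin (r + 1)) K,
    (∀ j, (G j).IsHomogeneous (d j : ℕ)) ∧
      ((∀ x : Fin (r + 1) → K, Zero F x → Zero G x) ∧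
        ∃ A : Fin N × Fin e → MvPolynomial (Fin (r + 1)) K, (∀ a, (A a).totalDegree ≤ c) ∧
          ∀ (i : Fin N) (x : Fin (r + 1) → K),
            eval x (F i) = ∑ j, eval x (A (i, j)) * eval x (G j))

theorem hc_mul {σ : Type} {a G : MvPolynomial σ K} {d : ℕ} (hG : G.IsHomogeneous d) (n : ℕ) :
    homogeneousComponent n (a * G) = if d ≤ n then homogeneousComponent (n - d) a * G else 0 := by
  have h1 : a * G = ∑ i ∈ Finset.range (a.totalDegree + 1), homogeneousComponent i a * G := by
    rw [← Finset.sum_mul, sum_homogeneousComponent]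
  have h2 : ∀ i, homogeneousComponent n (homogeneousComponent i a * G) =
      if n = i + d then homogeneousComponent i a * G else 0 := fun i =>
    homogeneousComponent_of_mem ((homogeneousComponent_isHomogeneous i a).mul hG)
  rw [h1, map_sum, Finset.sum_congr rfl fun i _ => h2 i]
  split_ifs with hd
  · by_cases h3 : n - d ∈ Finset.range (a.totalDegree + 1)
    · rw [Finset.sum_eq_single_of_mem (n - d) h3]
      · rw [if_pos (by omega)]
      · intro i _ hi
        rw [if_neg (by omega)]
    · rw [Finset.sum_eq_zero]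
      · rw [homogeneousComponent_eq_zero, zero_mul]
        rw [Finset.mem_range] at h3
        omega
      · intro i hi
        rw [Finset.mem_range] at hi h3
        rw [if_neg (by omega)]
  · refine Finset.sum_eq_zero fun i _ => ?_
    rw [if_neg (by omega)]

theorem CompleteIntersection.ciBy {e c : ℕ} {F : Fin N → MvPolynomial (Fin (r + 1)) K}
    {δ : Fin N → ℕ} (hF : ∀ i, (F i).IsHomogeneous (δ i)) (hδ : ∀ i, δ i ≤ c)
    (hx : ∃ x : Fin (r + 1) → K, x ≠ 0 ∧ Zero F x) {b : ℕ} (hs : SmoothBy e b F)
    (h : CompleteIntersection e F) : CIBy e c F := by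
  obtain ⟨d, G, hG, hz, hsp⟩ := h
  have h1 : ∀ i, ∃ a : Fin e → MvPolynomial (Fin (r + 1)) K, ∑ j, a j * G j = F i := fun i =>
    (Ideal.mem_span_range_iff_exists_fun).mp (hsp i)
  choose a ha using h1
  set A : Fin N × Fin e → MvPolynomial (Fin (r + 1)) K := fun p =>
    if d p.2 ≤ δ p.1 then homogeneousComponent (δ p.1 - d p.2) (a p.1 p.2) else 0 with hA
  have h2 : ∀ i, F i = ∑ j, A (i, j) * G j := by
    intro i
    have h3 : homogeneousComponent (δ i) (F i) = F i := by
      rw [homogeneousComponent_of_mem (hF i), if_pos rfl]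
    rw [← h3, ← ha i, map_sum]
    refine Finset.sum_congr rfl fun j _ => ?_
    rw [hc_mul (hG j)]
    simp only [hA]
    split_ifs
    · rfl
    · rw [zero_mul]
  have hd : ∀ j, d j ≤ c := by
    by_contra hcon
    push Not at hcon
    obtain ⟨j0, hj0⟩ := hcon
    obtain ⟨x, hx0, hxX⟩ := hx
    obtain ⟨T, ⟨B, hB⟩, -⟩ := hs x hx0 hxX
    refine hB ?_
    have h4 : eval x (jac F T B) = (Matrix.of fun i l => eval x (pderiv (B l) (F (T i)))).det := by
      rw [jac, RingHom.map_det]
      rfl
    have h5 : (Matrix.of fun i l => eval x (pderiv (B l) (F (T i)))) =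
        (Matrix.of fun i j => eval x (A (T i, j))) *
          (Matrix.of fun j l => eval x (pderiv (B l) (G j))) := by
      ext i l
      rw [Matrix.mul_apply, Matrix.of_apply]
      conv_lhs => rw [h2 (T i)]
      rw [map_sum, map_sum]
      refine Finset.sum_congr rfl fun j _ => ?_
      rw [Matrix.of_apply, Matrix.of_apply, Derivation.leibniz, smul_eq_mul, smul_eq_mul, map_add,
        map_mul, map_mul, hz x hxX j, zero_mul, add_zero]
    rw [h4, h5, Matrix.det_mul, Matrix.det_eq_zero_of_column_eq_zero j0, zero_mul]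
    intro i
    rw [Matrix.of_apply]
    have h6 : A (T i, j0) = 0 := if_neg (by
      have := hδ (T i)
      show ¬ d j0 ≤ δ (T i)
      omega)
    rw [h6, map_zero]
  refine ⟨fun j => ⟨d j, Nat.lt_succ_of_le (hd j)⟩, G, hG, hz, A, fun p => ?_, fun i x => ?_⟩
  · simp only [hA]
    split_ifs
    · refine (homogeneousComponent_isHomogeneous _ _).totalDegree_le.trans ?_
      have := hδ p.1
      omega
    · rw [totalDegree_zero]
      exact Nat.zero_le c
  · conv_lhs => rw [h2 i]
    rw [map_sum]
    exact Finset.sum_congr rfl fun j _ => map_mul _ _ _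

theorem CIBy.completeIntersection [Infinite K] {e c : ℕ}
    {F : Fin N → MvPolynomial (Fin (r + 1)) K} (h : CIBy e c F) : CompleteIntersection e F := by
  obtain ⟨d, G, hG, hz, A, -, hA⟩ := h
  refine ⟨fun j => d j, G, hG, hz, fun i => ?_⟩
  have h1 : F i = ∑ j, A (i, j) * G j := by
    refine MvPolynomial.funext fun x => ?_
    rw [hA i x, map_sum]
    exact Finset.sum_congr rfl fun j _ => (map_mul _ _ _).symm
  exact (Ideal.mem_span_range_iff_exists_fun).mpr ⟨fun j => A (i, j), h1.symm⟩

end Pool.Agent.H837.HT
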