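import Pool.Agent.H837.LU.El
import Pool.Agent.H837.KU.Main
import Pool.Agent.H837.HT.Defs

/-!
# Uniformity for transversal intersections of hypersurfaces
-/

set_option autoImplicit false

namespace Pool.Agent.H837.HT

open MvPolynomial Pool.Agent.H837.UF Pool.Agent.H837.SP Pool.Agent.H837.UR Pool.Agent.H837.AB
open Filter hiding map

theorem Transversal.mono {K : Type} [Field K] {r N : ℕ} {e c c' : ℕ} (hcc : c ≤ c')
    {F : Fin N → MvPolynomial (Fin (r + 1)) K} (h : Transversal e c F) : Transversal e c' F := by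
  obtain ⟨d, G, hG, h1⟩ := h
  exact ⟨fun j => Fin.castLE (Nat.succ_le_succ hcc) (d j), G, fun j => hG j, h1⟩

section Los

variable {J : Type} {U : Ultrafilter J} {K : J → Type} [∀ j, Field (K j)] {L : Type} [Field L]
  {π : (∀ j, K j) →+* L} (hπ : IsUltra U π) {r N : ℕ}
  (F : Fin N → MvPolynomial (Fin (r + 1)) (∀ j, K j))

include hπ

theorem transversal_los (e c : ℕ) :
    Transversal e c (lim π F) ↔ ∀ᶠ j in U, Transversal e c (at' F j) := by
  refine ex_fin fun d => ex_form hπ (fun j => (d j : ℕ)) fun G => and_iff ?_ ?_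
  · exact all_vec hπ fun x => LU.iff_los (zero_los hπ F x) (zero_los hπ G x)
  · refine all_vec hπ fun x => imp_iff (vec_ne hπ x) (imp_iff (zero_los hπ F x)
      (ex_fin fun A => not_iff ?_))
    have h1 := zero_iff hπ x (jac G id A)
    have h2 : ∀ j, jac (at' G j) id A = map (Pi.evalRingHom K j) (jac G id A) := fun j =>
      jac_map _ _ _ _
    have h3 : jac (lim π G) id A = map π (jac G id A) := jac_map _ _ _ _
    have h4 : (∀ᶠ j in U, eval (fun a => x a j) (jac (at' G j) id A) = 0) ↔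
        ∀ᶠ j in U, eval (fun a => x a j) (map (Pi.evalRingHom K j) (jac G id A)) = 0 := by
      simp only [h2]
    have h5 : eval (fun a => π (x a)) (jac (lim π G) id A) = 0 ↔
        eval (fun a => π (x a)) (map π (jac G id A)) = 0 := by
      rw [h3]
    exact h5.trans (h1.trans h4.symm)

theorem point_los :
    (∃ x : Fin (r + 1) → L, x ≠ 0 ∧ Zero (lim π F) x) ↔
      ∀ᶠ j in U, ∃ x : Fin (r + 1) → K j, x ≠ 0 ∧ Zero (at' F j) x :=
  ex_vec hπ fun x => and_iff (vec_ne hπ x) (zero_los hπ F x)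

end Los

theorem transversal_isLos {r N : ℕ} (e c : ℕ) :
    IsLosN (r := r) (N := N) fun _ _ F => Transversal e c F :=
  fun _ _ _ _ _ _ _ _ hπ F => transversal_los hπ F e c

theorem uniform_isLos {r N : ℕ} (e b c : ℕ) :
    IsLosN (r := r) (N := N) fun K _ F => (∃ x : Fin (r + 1) → K, x ≠ 0 ∧ Zero F x) →
      SmoothBy e b F → Transversal e c F :=
  fun _ _ _ _ _ _ _ _ hπ F => imp_iff (point_los hπ F) (imp_iff (smooth_los hπ F e b)
    (transversal_los hπ F e c))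

theorem family_tfae (r N e b : ℕ) (δ : Fin N → ℕ) :
    [∀ F : Fin N → MvPolynomial (Fin (r + 1)) ℂ, (∀ i, (F i).IsHomogeneous (δ i)) →
       (∃ x : Fin (r + 1) → ℂ, x ≠ 0 ∧ Zero F x) → SmoothBy e b F → ∃ c, Transversal e c F,
     ∃ c M : ℕ, M ≠ 0 ∧ ∀ (K : Type) [Field K] [IsAlgClosed K], (M : K) ≠ 0 →
       ∀ F : Fin N → MvPolynomial (Fin (r + 1)) K, (∀ i, (F i).IsHomogeneous (δ i)) →
         (∃ x : Fin (r + 1) → K, x ≠ 0 ∧ Zero F x) → SmoothBy e b F → Transversal e c F,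
     ∃ c ℓ₀ : ℕ, ∀ (ℓ : ℕ) [Fact ℓ.Prime], ℓ₀ ≤ ℓ →
       ∀ F : Fin N → MvPolynomial (Fin (r + 1)) (AlgebraicClosure (ZMod ℓ)),
         (∀ i, (F i).IsHomogeneous (δ i)) →
         (∃ x : Fin (r + 1) → AlgebraicClosure (ZMod ℓ), x ≠ 0 ∧ Zero F x) → SmoothBy e b F →
           Transversal e c F,
     ∃ c : ℕ, ∀ ℓ₀ : ℕ, ∃ (ℓ : ℕ) (_ : Fact ℓ.Prime), ℓ₀ ≤ ℓ ∧
       ∀ F : Fin N → MvPolynomial (Fin (r + 1)) (AlgebraicClosure (ZMod ℓ)),
         (∀ i, (F i).IsHomogeneous (δ i)) →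
         (∃ x : Fin (r + 1) → AlgebraicClosure (ZMod ℓ), x ≠ 0 ∧ Zero F x) → SmoothBy e b F →
           Transversal e c F].TFAE := by
  have hfin : Finite (Expos r δ) := Finite.of_fintype (Expos r δ)
  have hft := finiteType_int (Expos r δ)
  have hT := uniform_tfae (R := MvPolynomial (Expos r δ) ℤ)
    (Q := fun c K _ t => (∃ x : Fin (r + 1) → K, x ≠ 0 ∧ Zero (fun i => map t (generics r δ i)) x) →
      SmoothBy e b (fun i => map t (generics r δ i)) →
        Transversal e c fun i => map t (generics r δ i))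
    (fun c => (uniform_isLos e b c).elementary (generics r δ))
    (fun c c' hcc K _ φ h h1 h2 => (h h1 h2).mono hcc)
  have hdeg : ∀ (K : Type) [Field K] (t : MvPolynomial (Expos r δ) ℤ →+* K) (i : Fin N),
      (map t (generics r δ i)).IsHomogeneous (δ i) := fun K _ t i =>
    (generics_isHomogeneous r δ i).map t
  have key : ∀ (c : ℕ) (K : Type) [Field K],
      (∀ t : MvPolynomial (Expos r δ) ℤ →+* K,
        (∃ x : Fin (r + 1) → K, x ≠ 0 ∧ Zero (fun i => map t (generics r δ i)) x) →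
        SmoothBy e b (fun i => map t (generics r δ i)) →
          Transversal e c fun i => map t (generics r δ i)) ↔
      ∀ F : Fin N → MvPolynomial (Fin (r + 1)) K, (∀ i, (F i).IsHomogeneous (δ i)) →
        (∃ x : Fin (r + 1) → K, x ≠ 0 ∧ Zero F x) → SmoothBy e b F → Transversal e c F := by
    intro c K _
    constructor
    · intro h F hF h1 h2
      obtain ⟨t, rfl⟩ := exists_homs hF
      exact h t h1 h2
    · intro h t h1 h2
      exact h _ (hdeg K t) h1 h2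
  tfae_have 1 → 2 := by
    intro h
    have h02 := hT.out 0 2
    obtain ⟨c, M, hM, hc⟩ := h02.mp fun t => by
      by_cases h1 : ∃ x : Fin (r + 1) → ℂ, x ≠ 0 ∧ Zero (fun i => map t (generics r δ i)) x
      · by_cases h2 : SmoothBy e b (fun i => map t (generics r δ i))
        · obtain ⟨c, hc⟩ := h _ (hdeg ℂ t) h1 h2
          exact ⟨c, fun _ _ => hc⟩
        · exact ⟨0, fun _ h3 => absurd h3 h2⟩
      · exact ⟨0, fun h3 => absurd h3 h1⟩
    exact ⟨c, M, hM, fun K _ _ hMK => (key c K).mp fun t => hc K t hMK⟩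
  tfae_have 2 → 3 := by
    rintro ⟨c, M, hM, hc⟩
    refine ⟨c, M + 1, fun ℓ hℓ hle => hc _ ?_⟩
    intro h0
    rw [CharP.cast_eq_zero_iff (AlgebraicClosure (ZMod ℓ)) ℓ] at h0
    have h3 := Nat.le_of_dvd (Nat.pos_of_ne_zero hM) h0
    omega
  tfae_have 3 → 4 := by
    rintro ⟨c, ℓ₀, hc⟩
    refine ⟨c, fun ℓ₁ => ?_⟩
    obtain ⟨ℓ, hle, hℓ⟩ := Nat.exists_infinite_primes (max ℓ₀ ℓ₁)
    have hf : Fact ℓ.Prime := ⟨hℓ⟩
    exact ⟨ℓ, hf, (le_max_right _ _).trans hle, hc ℓ ((le_max_left _ _).trans hle)⟩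
  tfae_have 4 → 1 := by
    rintro ⟨c, hc⟩
    have h41 := hT.out 4 1
    obtain ⟨c', hc'⟩ := h41.mp ⟨c, fun ℓ₀ => by
      obtain ⟨ℓ, hf, hle, h⟩ := hc ℓ₀
      exact ⟨ℓ, hf, hle, (key c _).mpr h⟩⟩
    intro F hF h1 h2
    exact ⟨c', (key c' ℂ).mp hc' F hF h1 h2⟩
  tfae_finish

/-- **Transversal intersections: statements over finite fields.** -/
theorem question_tfae (n e : ℕ) :
    [∀ (K : Type) [Field K] [IsAlgClosed K] [CharZero K], Question n e K,
     Question n e ℂ,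
     ∀ (N b : ℕ) (δ : Fin N → ℕ), ∃ c M : ℕ, M ≠ 0 ∧
       ∀ (K : Type) [Field K] [IsAlgClosed K], (M : K) ≠ 0 →
       ∀ F : Fin N → MvPolynomial (Fin (n + 1)) K, (∀ i, (F i).IsHomogeneous (δ i)) →
         (∃ x : Fin (n + 1) → K, x ≠ 0 ∧ Zero F x) → SmoothBy e b F → Transversal e c F,
     ∀ (N b : ℕ) (δ : Fin N → ℕ), ∃ c ℓ₀ : ℕ, ∀ (ℓ : ℕ) [Fact ℓ.Prime], ℓ₀ ≤ ℓ →
       ∀ F : Fin N → MvPolynomial (Fin (n + 1)) (AlgebraicClosure (ZMod ℓ)),
         (∀ i, (F i).IsHomogeneous (δ i)) →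
         (∃ x : Fin (n + 1) → AlgebraicClosure (ZMod ℓ), x ≠ 0 ∧ Zero F x) → SmoothBy e b F →
           Transversal e c F,
     ∀ (N b : ℕ) (δ : Fin N → ℕ), ∃ c : ℕ, ∀ ℓ₀ : ℕ, ∃ (ℓ : ℕ) (_ : Fact ℓ.Prime), ℓ₀ ≤ ℓ ∧
       ∀ F : Fin N → MvPolynomial (Fin (n + 1)) (AlgebraicClosure (ZMod ℓ)),
         (∀ i, (F i).IsHomogeneous (δ i)) →
         (∃ x : Fin (n + 1) → AlgebraicClosure (ZMod ℓ), x ≠ 0 ∧ Zero F x) → SmoothBy e b F →
           Transversal e c F].TFAE := by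
  tfae_have 1 → 2 := fun h => h ℂ
  tfae_have 2 → 3 := by
    intro h N b δ
    exact ((family_tfae n N e b δ).out 0 1).mp fun F hF h1 h2 => h N δ F hF h1 ⟨b, h2⟩
  tfae_have 3 → 1 := by
    intro h K _ _ _ N δ F hF h1 h2
    obtain ⟨b, hb⟩ := h2
    obtain ⟨c, M, hM, hc⟩ := h N b δ
    exact ⟨c, hc K (Nat.cast_ne_zero.mpr hM) F hF h1 hb⟩
  tfae_have 3 ↔ 4 := forall_congr' fun N =>
    forall_congr' fun b => forall_congr' fun δ => (family_tfae n N e b δ).out 1 2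
  tfae_have 3 ↔ 5 := forall_congr' fun N =>
    forall_congr' fun b => forall_congr' fun δ => (family_tfae n N e b δ).out 1 3
  tfae_finish

end Pool.Agent.H837.HT
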