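import Pool.Agent.H837.HT.Strong
import Pool.Agent.H837.HT.Main

/-!
# Complete intersections are transversal intersections
-/

set_option autoImplicit false

namespace Pool.Agent.H837.HT

open MvPolynomial Pool.Agent.H837.AB

variable {K : Type} [Field K] {r N : ℕ}

theorem jac_eq {e : ℕ} {F : Fin N → MvPolynomial (Fin (r + 1)) K}
    {G : Fin e → MvPolynomial (Fin (r + 1)) K} {A : Fin N × Fin e → MvPolynomial (Fin (r + 1)) K}
    (h : ∀ i, F i = ∑ j, A (i, j) * G j) {x : Fin (r + 1) → K} (hx : Zero G x)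
    (T : Fin e → Fin N) (B : Fin e → Fin (r + 1)) :
    eval x (jac F T B) =
      (Matrix.of fun i j => eval x (A (T i, j))).det * eval x (jac G id B) := by
  have h4 : eval x (jac F T B) = (Matrix.of fun i l => eval x (pderiv (B l) (F (T i)))).det := by
    rw [jac, RingHom.map_det]
    rfl
  have h6 : eval x (jac G id B) = (Matrix.of fun j l => eval x (pderiv (B l) (G j))).det := by
    rw [jac, RingHom.map_det]
    rfl
  have h5 : (Matrix.of fun i l => eval x (pderiv (B l) (F (T i)))) =
      (Matrix.of fun i j => eval x (A (T i, j))) *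
        (Matrix.of fun j l => eval x (pderiv (B l) (G j))) := by
    ext i l
    rw [Matrix.mul_apply, Matrix.of_apply]
    conv_lhs => rw [h (T i)]
    rw [map_sum, map_sum]
    refine Finset.sum_congr rfl fun j _ => ?_
    rw [Matrix.of_apply, Matrix.of_apply, Derivation.leibniz, smul_eq_mul, smul_eq_mul, map_add,
      map_mul, map_mul, hx j, zero_mul, add_zero]
  rw [h4, h5, Matrix.det_mul, h6]

/-- A smooth complete intersection is a transversal intersection. -/
theorem CompleteIntersection.transversal [IsAlgClosed K] {e b : ℕ} {δ : Fin N → ℕ}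
    {F : Fin N → MvPolynomial (Fin (r + 1)) K} (hF : ∀ i, (F i).IsHomogeneous (δ i))
    (hx : ∃ x : Fin (r + 1) → K, x ≠ 0 ∧ Zero F x) (hs : SmoothBy e b F)
    (h : CompleteIntersection e F) : Transversal e (∑ i, δ i) F := by
  have : Infinite K := IsAlgClosed.instInfinite
  obtain ⟨d, G, hG, hz, A, -, hA⟩ := h.ciBy hF (le_total δ) hx hs
  have h1 : ∀ i, F i = ∑ j, A (i, j) * G j := by
    intro i
    refine MvPolynomial.funext fun x => ?_
    rw [hA i x, map_sum]
    exact Finset.sum_congr rfl fun j _ => (map_mul _ _ _).symm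
  refine ⟨d, G, hG, fun x => ⟨hz x, fun h2 i => ?_⟩, fun x hx0 hxX => ?_⟩
  · rw [hA i x]
    exact Finset.sum_eq_zero fun j _ => by rw [h2 j, mul_zero]
  · obtain ⟨T, ⟨B, hB⟩, -⟩ := hs x hx0 hxX
    rw [jac_eq h1 (hz x hxX) T B] at hB
    exact ⟨B, right_ne_zero_of_mul hB⟩

end Pool.Agent.H837.HT
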