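import Pool.Agent.H837.LU.El
import Pool.Agent.H837.KU.Main
import Pool.Agent.H837.HT.Degree

/-!
# Complete intersections over finite fields
-/

set_option autoImplicit false

namespace Pool.Agent.H837.HT

open MvPolynomial Pool.Agent.H837.UF Pool.Agent.H837.SP Pool.Agent.H837.UR Pool.Agent.H837.AB
open Filter hiding map

/-- The nonempty smooth closed subvarieties `X` of pure codimension `e` of the projective space of
dimension `n` over `K` are complete intersections of `e` hypersurfaces. -/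
def QuestionCI (n e : ℕ) (K : Type) [Field K] : Prop :=
  ∀ (N : ℕ) (δ : Fin N → ℕ) (F : Fin N → MvPolynomial (Fin (n + 1)) K),
    (∀ i, (F i).IsHomogeneous (δ i)) → (∃ x : Fin (n + 1) → K, x ≠ 0 ∧ Zero F x) →
      (∃ b, SmoothBy e b F) → CompleteIntersection e F

section Los

variable {J : Type} {U : Ultrafilter J} {K : J → Type} [∀ j, Field (K j)] {L : Type} [Field L]
  {π : (∀ j, K j) →+* L} (hπ : IsUltra U π) {r N : ℕ}
  (F : Fin N → MvPolynomial (Fin (r + 1)) (∀ j, K j))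

include hπ

theorem ciBy_los (e c : ℕ) :
    CIBy e c (lim π F) ↔ ∀ᶠ j in U, CIBy e c (at' F j) := by
  refine ex_fin fun d => ex_form hπ (fun j => (d j : ℕ)) fun G => and_iff ?_ ?_
  · exact all_vec hπ fun x => imp_iff (zero_los hπ F x) (zero_los hπ G x)
  · refine ex_poly hπ c fun A => all_fin fun i => all_vec hπ fun x => ?_
    refine val_eq hπ (a := eval x (F i)) (b := ∑ j, eval x (A (i, j)) * eval x (G j))
      ?_ ?_ (fun j => ?_) fun j => ?_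
    · simp only [eval_pi]
    · rw [map_sum]
      simp only [map_mul, eval_pi]
    · simp only [eval_ev]
    · rw [Finset.sum_apply]
      simp only [Pi.mul_apply, eval_ev]

theorem nonempty_los :
    (∃ x : Fin (r + 1) → L, x ≠ 0 ∧ Zero (lim π F) x) ↔
      ∀ᶠ j in U, ∃ x : Fin (r + 1) → K j, x ≠ 0 ∧ Zero (at' F j) x :=
  ex_vec hπ fun x => and_iff (vec_ne hπ x) (zero_los hπ F x)

end Los

theorem ci_isLos {r N : ℕ} (e b c : ℕ) :
    IsLosN (r := r) (N := N) fun K _ F => (∃ x : Fin (r + 1) → K, x ≠ 0 ∧ Zero F x) →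
      SmoothBy e b F → CIBy e c F :=
  fun _ _ _ _ _ _ _ _ hπ F => imp_iff (nonempty_los hπ F) (imp_iff (smooth_los hπ F e b)
    (ciBy_los hπ F e c))

theorem smooth_isLos {r N : ℕ} (e b : ℕ) :
    IsLosN (r := r) (N := N) fun K _ F => (∃ x : Fin (r + 1) → K, x ≠ 0 ∧ Zero F x) ∧
      SmoothBy e b F :=
  fun _ _ _ _ _ _ _ _ hπ F => and_iff (nonempty_los hπ F) (smooth_los hπ F e b)

theorem smoothCi_isLos {r N : ℕ} (e b c : ℕ) :
    IsLosN (r := r) (N := N) fun K _ F => ((∃ x : Fin (r + 1) → K, x ≠ 0 ∧ Zero F x) ∧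
      SmoothBy e b F) ∧ CIBy e c F :=
  fun _ _ _ _ _ _ _ _ hπ F => and_iff (and_iff (nonempty_los hπ F) (smooth_los hπ F e b))
    (ciBy_los hπ F e c)

theorem le_total {N : ℕ} (δ : Fin N → ℕ) (i : Fin N) : δ i ≤ ∑ i, δ i :=
  Finset.single_le_sum (fun _ _ => Nat.zero_le _) (Finset.mem_univ i)

theorem ci_iff {K : Type} [Field K] [IsAlgClosed K] {r N e b : ℕ} {δ : Fin N → ℕ}
    {F : Fin N → MvPolynomial (Fin (r + 1)) K} (hF : ∀ i, (F i).IsHomogeneous (δ i))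
    (hx : ∃ x : Fin (r + 1) → K, x ≠ 0 ∧ Zero F x) (hs : SmoothBy e b F) :
    CompleteIntersection e F ↔ CIBy e (∑ i, δ i) F := by
  have : Infinite K := IsAlgClosed.instInfinite
  exact ⟨fun h => h.ciBy hF (le_total δ) hx hs, fun h => h.completeIntersection⟩

theorem familyCi_tfae (r N e b : ℕ) (δ : Fin N → ℕ) :
    [∀ F : Fin N → MvPolynomial (Fin (r + 1)) ℂ, (∀ i, (F i).IsHomogeneous (δ i)) →
       (∃ x : Fin (r + 1) → ℂ, x ≠ 0 ∧ Zero F x) → SmoothBy e b F → CompleteIntersection e F,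
     ∃ M : ℕ, M ≠ 0 ∧ ∀ (K : Type) [Field K] [IsAlgClosed K], (M : K) ≠ 0 →
       ∀ F : Fin N → MvPolynomial (Fin (r + 1)) K, (∀ i, (F i).IsHomogeneous (δ i)) →
         (∃ x : Fin (r + 1) → K, x ≠ 0 ∧ Zero F x) → SmoothBy e b F → CompleteIntersection e F,
     ∃ ℓ₀ : ℕ, ∀ (ℓ : ℕ) [Fact ℓ.Prime], ℓ₀ ≤ ℓ →
       ∀ F : Fin N → MvPolynomial (Fin (r + 1)) (AlgebraicClosure (ZMod ℓ)),
         (∀ i, (F i).IsHomogeneous (δ i)) →
         (∃ x : Fin (r + 1) → AlgebraicClosure (ZMod ℓ), x ≠ 0 ∧ Zero F x) → SmoothBy e b F →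
           CompleteIntersection e F,
     ∀ ℓ₀ : ℕ, ∃ (ℓ : ℕ) (_ : Fact ℓ.Prime), ℓ₀ ≤ ℓ ∧
       ∀ F : Fin N → MvPolynomial (Fin (r + 1)) (AlgebraicClosure (ZMod ℓ)),
         (∀ i, (F i).IsHomogeneous (δ i)) →
         (∃ x : Fin (r + 1) → AlgebraicClosure (ZMod ℓ), x ≠ 0 ∧ Zero F x) → SmoothBy e b F →
           CompleteIntersection e F].TFAE := by
  have hfin : Finite (Expos r δ) := Finite.of_fintype (Expos r δ)
  have hft := finiteType_int (Expos r δ)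
  have hT := uniform_tfae (R := MvPolynomial (Expos r δ) ℤ)
    (Q := fun _ K _ t => (∃ x : Fin (r + 1) → K, x ≠ 0 ∧ Zero (fun i => map t (generics r δ i)) x) →
      SmoothBy e b (fun i => map t (generics r δ i)) →
        CIBy e (∑ i, δ i) fun i => map t (generics r δ i))
    (fun _ => (ci_isLos e b (∑ i, δ i)).elementary (generics r δ))
    (fun _ _ _ _ _ _ h => h)
  have hdeg : ∀ (K : Type) [Field K] (t : MvPolynomial (Expos r δ) ℤ →+* K) (i : Fin N),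
      (map t (generics r δ i)).IsHomogeneous (δ i) := fun K _ t i =>
    (generics_isHomogeneous r δ i).map t
  have key : ∀ (K : Type) [Field K] [IsAlgClosed K],
      (∀ t : MvPolynomial (Expos r δ) ℤ →+* K,
        (∃ x : Fin (r + 1) → K, x ≠ 0 ∧ Zero (fun i => map t (generics r δ i)) x) →
        SmoothBy e b (fun i => map t (generics r δ i)) →
          CIBy e (∑ i, δ i) fun i => map t (generics r δ i)) ↔
      ∀ F : Fin N → MvPolynomial (Fin (r + 1)) K, (∀ i, (F i).IsHomogeneous (δ i)) →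
        (∃ x : Fin (r + 1) → K, x ≠ 0 ∧ Zero F x) → SmoothBy e b F →
          CompleteIntersection e F := by
    intro K _ _
    constructor
    · intro h F hF h1 h2
      obtain ⟨t, rfl⟩ := exists_homs hF
      exact (ci_iff hF h1 h2).mpr (h t h1 h2)
    · intro h t h1 h2
      exact (ci_iff (hdeg K t) h1 h2).mp (h _ (hdeg K t) h1 h2)
  tfae_have 1 → 2 := by
    intro h
    have h02 := hT.out 0 2
    obtain ⟨c, M, hM, hc⟩ := h02.mp fun t => ⟨0, (key ℂ).mpr h t⟩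
    exact ⟨M, hM, fun K _ _ hMK => (key K).mp fun t => hc K t hMK⟩
  tfae_have 2 → 3 := by
    rintro ⟨M, hM, hc⟩
    refine ⟨M + 1, fun ℓ hℓ hle => hc _ ?_⟩
    intro h0
    rw [CharP.cast_eq_zero_iff (AlgebraicClosure (ZMod ℓ)) ℓ] at h0
    have h3 := Nat.le_of_dvd (Nat.pos_of_ne_zero hM) h0
    omega
  tfae_have 3 → 4 := by
    rintro ⟨ℓ₀, hc⟩ ℓ₁
    obtain ⟨ℓ, hle, hℓ⟩ := Nat.exists_infinite_primes (max ℓ₀ ℓ₁)
    have hf : Fact ℓ.Prime := ⟨hℓ⟩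
    exact ⟨ℓ, hf, (le_max_right _ _).trans hle, hc ℓ ((le_max_left _ _).trans hle)⟩
  tfae_have 4 → 1 := by
    intro hc
    have h41 := hT.out 4 1
    obtain ⟨c', hc'⟩ := h41.mp ⟨0, fun ℓ₀ => by
      obtain ⟨ℓ, hf, hle, h⟩ := hc ℓ₀
      exact ⟨ℓ, hf, hle, (key _).mpr h⟩⟩
    exact (key ℂ).mp hc'
  tfae_finish

/-- **Complete intersections: statements over finite fields.** -/
theorem questionCi_tfae (n e : ℕ) :
    [∀ (K : Type) [Field K] [IsAlgClosed K] [CharZero K], QuestionCI n e K,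
     QuestionCI n e ℂ,
     ∀ (N b : ℕ) (δ : Fin N → ℕ), ∃ M : ℕ, M ≠ 0 ∧
       ∀ (K : Type) [Field K] [IsAlgClosed K], (M : K) ≠ 0 →
       ∀ F : Fin N → MvPolynomial (Fin (n + 1)) K, (∀ i, (F i).IsHomogeneous (δ i)) →
         (∃ x : Fin (n + 1) → K, x ≠ 0 ∧ Zero F x) → SmoothBy e b F → CompleteIntersection e F,
     ∀ (N b : ℕ) (δ : Fin N → ℕ), ∃ ℓ₀ : ℕ, ∀ (ℓ : ℕ) [Fact ℓ.Prime], ℓ₀ ≤ ℓ →
       ∀ F : Fin N → MvPolynomial (Fin (n + 1)) (AlgebraicClosure (ZMod ℓ)),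
         (∀ i, (F i).IsHomogeneous (δ i)) →
         (∃ x : Fin (n + 1) → AlgebraicClosure (ZMod ℓ), x ≠ 0 ∧ Zero F x) → SmoothBy e b F →
           CompleteIntersection e F,
     ∀ (N b : ℕ) (δ : Fin N → ℕ) (ℓ₀ : ℕ), ∃ (ℓ : ℕ) (_ : Fact ℓ.Prime), ℓ₀ ≤ ℓ ∧
       ∀ F : Fin N → MvPolynomial (Fin (n + 1)) (AlgebraicClosure (ZMod ℓ)),
         (∀ i, (F i).IsHomogeneous (δ i)) →
         (∃ x : Fin (n + 1) → AlgebraicClosure (ZMod ℓ), x ≠ 0 ∧ Zero F x) → SmoothBy e b F →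
           CompleteIntersection e F].TFAE := by
  tfae_have 1 → 2 := fun h => h ℂ
  tfae_have 2 → 3 := by
    intro h N b δ
    exact ((familyCi_tfae n N e b δ).out 0 1).mp fun F hF h1 h2 => h N δ F hF h1 ⟨b, h2⟩
  tfae_have 3 → 1 := by
    intro h K _ _ _ N δ F hF h1 h2
    obtain ⟨b, hb⟩ := h2
    obtain ⟨M, hM, hc⟩ := h N b δ
    exact hc K (Nat.cast_ne_zero.mpr hM) F hF h1 hb
  tfae_have 3 ↔ 4 := forall_congr' fun N =>
    forall_congr' fun b => forall_congr' fun δ => (familyCi_tfae n N e b δ).out 1 2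
  tfae_have 3 ↔ 5 := forall_congr' fun N =>
    forall_congr' fun b => forall_congr' fun δ => (familyCi_tfae n N e b δ).out 1 3
  tfae_finish

/-- Reductions of one variety given over the integers. -/
theorem reductionsCi_tfae {r N e b : ℕ} {δ : Fin N → ℕ}
    (F : Fin N → MvPolynomial (Fin (r + 1)) ℤ) (hF : ∀ i, (F i).IsHomogeneous (δ i))
    (hx : ∃ x : Fin (r + 1) → ℂ, x ≠ 0 ∧ Zero (fun i => map (Int.castRingHom ℂ) (F i)) x)
    (hs : SmoothBy e b fun i => map (Int.castRingHom ℂ) (F i)) :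
    [CompleteIntersection e fun i => map (Int.castRingHom ℂ) (F i),
     ∃ ℓ₀ : ℕ, ∀ (ℓ : ℕ) [Fact ℓ.Prime], ℓ₀ ≤ ℓ →
       CompleteIntersection e fun i => map (Int.castRingHom (AlgebraicClosure (ZMod ℓ))) (F i),
     ∀ ℓ₀ : ℕ, ∃ (ℓ : ℕ) (_ : Fact ℓ.Prime), ℓ₀ ≤ ℓ ∧
       CompleteIntersection e
         fun i => map (Int.castRingHom (AlgebraicClosure (ZMod ℓ))) (F i)].TFAE := by
  have h1 := KU.reductions_tfae (P := fun _ K _ F =>
    ((∃ x : Fin (r + 1) → K, x ≠ 0 ∧ Zero F x) ∧ SmoothBy e b F) ∧ CIBy e (∑ i, δ i) F)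
    (fun _ => smoothCi_isLos e b (∑ i, δ i)) (fun _ _ _ _ _ _ h => h) F
  have h2 := KU.reductions_tfae (P := fun _ K _ F =>
    (∃ x : Fin (r + 1) → K, x ≠ 0 ∧ Zero F x) ∧ SmoothBy e b F)
    (fun _ => smooth_isLos e b) (fun _ _ _ _ _ _ h => h) F
  have h21 := h2.out 0 1
  have h11 := h1.out 0 1
  have h12 := h1.out 2 0
  obtain ⟨-, ℓ₁, hℓ₁⟩ := h21.mp ⟨0, hx, hs⟩
  tfae_have 1 → 2 := by
    intro h
    obtain ⟨-, ℓ₀, h3⟩ := h11.mp
      ⟨0, ⟨hx, hs⟩, (ci_iff (fun i => (hF i).map _) hx hs).mp h⟩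
    refine ⟨max ℓ₀ ℓ₁, fun ℓ _ hle => ?_⟩
    have h4 := h3 ℓ ((le_max_left _ _).trans hle)
    exact (ci_iff (fun i => (hF i).map _) h4.1.1 h4.1.2).mpr h4.2
  tfae_have 2 → 3 := by
    rintro ⟨ℓ₀, hc⟩ ℓ₂
    obtain ⟨ℓ, hle, hℓ⟩ := Nat.exists_infinite_primes (max ℓ₀ ℓ₂)
    have hf : Fact ℓ.Prime := ⟨hℓ⟩
    exact ⟨ℓ, hf, (le_max_right _ _).trans hle, hc ℓ ((le_max_left _ _).trans hle)⟩
  tfae_have 3 → 1 := by
    intro hc
    obtain ⟨-, h3⟩ := h12.mp ⟨0, fun ℓ₀ => by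
      obtain ⟨ℓ, hf, hle, h⟩ := hc (max ℓ₀ ℓ₁)
      have h4 := hℓ₁ ℓ ((le_max_right _ _).trans hle)
      exact ⟨ℓ, hf, (le_max_left _ _).trans hle, h4,
        (ci_iff (fun i => (hF i).map _) h4.1 h4.2).mp h⟩⟩
    exact (ci_iff (fun i => (hF i).map _) hx hs).mpr h3.2
  tfae_finish

end Pool.Agent.H837.HT
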